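import Mathlib

set_option autoImplicit false

open Set Real Filter Topology MeasureTheory
open scoped NNReal ContDiff

namespace Pool.Agent.KS6_2.GC2.Gas

variable {d : ℕ}

/-- space -/
abbrev E (d : ℕ) : Type := EuclideanSpace ℝ (Fin d)

/-- the coordinate functional -/
noncomputable abbrev pr (i : Fin d) : E d →L[ℝ] ℝ := EuclideanSpace.proj i

/-- semi-axes obeying the equations of motion -/
structure Axes (γ : ℝ) (a av : Fin d → ℝ → ℝ) : Prop where
  ha : ∀ i t, HasDerivAt (a i) (av i t) t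
  hav : ∀ i t, HasDerivAt (av i) ((∏ j, a j t) ^ (1 - γ) / a i t) t
  pos : ∀ i t, 0 < a i t

variable {γ A : ℝ} {a av : Fin d → ℝ → ℝ}

lemma Axes.prod_pos (h : Axes γ a av) (t : ℝ) : 0 < ∏ j, a j t := Finset.prod_pos fun j _ => h.pos j t

lemma Axes.smooth_nat (h : Axes γ a av) (k : ℕ) :
    ∀ i, ContDiff ℝ k (a i) ∧ ContDiff ℝ k (av i) := by
  induction k with
  | zero =>
    intro i
    simp only [Nat.cast_zero, contDiff_zero]
    exact ⟨continuous_iff_continuousAt.2 fun t => (h.ha i t).continuousAt,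
      continuous_iff_continuousAt.2 fun t => (h.hav i t).continuousAt⟩
  | succ k ih =>
    intro i
    have e1 : deriv (a i) = av i := funext fun t => (h.ha i t).deriv
    have e2 : deriv (av i) = fun t => (∏ j, a j t) ^ (1 - γ) / a i t := funext fun t => (h.hav i t).deriv
    constructor
    · rw [Nat.cast_add, Nat.cast_one, contDiff_succ_iff_deriv]
      refine ⟨fun t => (h.ha i t).differentiableAt, by simp, ?_⟩
      rw [e1]
      exact (ih i).2
    · rw [Nat.cast_add, Nat.cast_one, contDiff_succ_iff_deriv]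
      refine ⟨fun t => (h.hav i t).differentiableAt, by simp, ?_⟩
      rw [e2]
      have hp : ContDiff ℝ k (fun t => ∏ j, a j t) := contDiff_prod fun j _ => (ih j).1
      refine ContDiff.div ?_ (ih i).1 (fun t => (h.pos i t).ne')
      exact hp.rpow_const_of_ne (fun t => (h.prod_pos t).ne')

lemma Axes.smooth (h : Axes γ a av) (i : Fin d) : ContDiff ℝ ∞ (a i) ∧ ContDiff ℝ ∞ (av i) :=
  ⟨contDiff_infty.2 fun k => (h.smooth_nat k i).1, contDiff_infty.2 fun k => (h.smooth_nat k i).2⟩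

/-- the defining function of the domain -/
noncomputable def S (a : Fin d → ℝ → ℝ) (t : ℝ) (x : E d) : ℝ := 1 - ∑ i, x i ^ 2 / a i t ^ 2

/-- half the gradient of the defining function, up to sign -/
noncomputable def Gr (a : Fin d → ℝ → ℝ) (t : ℝ) (x : E d) : E d :=
  WithLp.toLp 2 (fun i => x i / a i t ^ 2)

noncomputable def KK (A γ : ℝ) : ℝ := (γ - 1) / (2 * A * γ)

noncomputable def rho (A γ : ℝ) (a : Fin d → ℝ → ℝ) (t : ℝ) (x : E d) : ℝ :=
  (∏ j, a j t)⁻¹ * (KK A γ * max (S a t x) 0) ^ (1 / (γ - 1))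

noncomputable def vel (a av : Fin d → ℝ → ℝ) (t : ℝ) (x : E d) : E d :=
  WithLp.toLp 2 (fun i => av i t / a i t * x i)

noncomputable def Om (a : Fin d → ℝ → ℝ) (t : ℝ) : Set (E d) := {x | 0 < S a t x}

lemma KK_pos (hA : 0 < A) (hγ : 1 < γ) : 0 < KK A γ := by
  have : 0 < γ - 1 := by linarith
  unfold KK; positivity

lemma Axes.contDiff_S (h : Axes γ a av) : ContDiff ℝ ∞ (fun q : ℝ × E d => S a q.1 q.2) := by
  unfold S
  refine contDiff_const.sub (ContDiff.sum fun i _ => ?_)
  have h1 : ContDiff ℝ ∞ (fun q : ℝ × E d => a i q.1) := (h.smooth i).1.comp contDiff_fst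
  have h2 : ContDiff ℝ ∞ (fun q : ℝ × E d => q.2 i) := (pr i).contDiff.comp contDiff_snd
  exact (h2.pow 2).div (h1.pow 2) (fun q => (pow_pos (h.pos i _) 2).ne')

lemma Axes.contDiff_S_space (h : Axes γ a av) (t : ℝ) : ContDiff ℝ ∞ (S a t) :=
  h.contDiff_S.comp (contDiff_const.prodMk contDiff_id)

lemma Axes.contDiff_vel (h : Axes γ a av) : ContDiff ℝ ∞ (fun q : ℝ × E d => vel a av q.1 q.2) := by
  rw [contDiff_euclidean]
  intro i
  have h1 : ContDiff ℝ ∞ (fun q : ℝ × E d => a i q.1) := (h.smooth i).1.comp contDiff_fst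
  have h1' : ContDiff ℝ ∞ (fun q : ℝ × E d => av i q.1) := (h.smooth i).2.comp contDiff_fst
  have h2 : ContDiff ℝ ∞ (fun q : ℝ × E d => q.2 i) := (pr i).contDiff.comp contDiff_snd
  exact (h1'.div h1 (fun q => (h.pos i _).ne')).mul h2

lemma hasFDerivAt_S (t : ℝ) (x : E d) :
    HasFDerivAt (S a t) (∑ i, (-(2 * x i / a i t ^ 2)) • pr i) x := by
  unfold S
  have h : ∀ i, HasFDerivAt (fun y : E d => y i ^ 2 / a i t ^ 2) ((2 * x i / a i t ^ 2) • pr i) x := by
    intro i
    have h1 : HasFDerivAt (fun y : E d => y i) (pr i) x := (pr i).hasFDerivAt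
    have h2 := (h1.pow 2).const_mul ((a i t ^ 2)⁻¹)
    have h3 : HasFDerivAt (fun y : E d => y i ^ 2 / a i t ^ 2) _ x :=
      h2.congr_of_eventuallyEq (Eventually.of_forall fun y => by simp only [div_eq_inv_mul])
    refine h3.congr_fderiv ?_
    ext v
    simp
    ring
  have := (HasFDerivAt.fun_sum (u := Finset.univ) fun i _ => h i).const_sub 1
  refine this.congr_fderiv ?_
  rw [← Finset.sum_neg_distrib]
  refine Finset.sum_congr rfl fun i _ => ?_
  ext v
  simp

lemma Axes.hasDerivAt_S (h : Axes γ a av) (t : ℝ) (x : E d) :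
    HasDerivAt (fun s => S a s x) (∑ i, 2 * x i ^ 2 * av i t / a i t ^ 3) t := by
  unfold S
  have h1 : ∀ i, HasDerivAt (fun s => x i ^ 2 / a i s ^ 2) (-(2 * x i ^ 2 * av i t / a i t ^ 3)) t := by
    intro i
    have h2 := (hasDerivAt_const t (x i ^ 2)).div ((h.ha i t).pow 2) (pow_pos (h.pos i t) 2).ne'
    refine h2.congr_deriv ?_
    have := (h.pos i t).ne'
    simp only [Pi.pow_apply]
    field_simp
    push_cast
    ring
  have := (HasDerivAt.fun_sum (u := Finset.univ) fun i _ => h1 i).const_sub 1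
  refine this.congr_deriv ?_
  simp

lemma hasGradientAt_S (t : ℝ) (x : E d) : HasGradientAt (S a t) (-((2:ℝ) • Gr a t x)) x := by
  rw [hasGradientAt_iff_hasFDerivAt]
  refine (hasFDerivAt_S t x).congr_fderiv ?_
  ext v
  simp only [InnerProductSpace.toDual_apply_apply, inner_neg_left, inner_smul_left]
  simp [Gr, PiLp.inner_apply, Finset.mul_sum]
  refine Finset.sum_congr rfl fun i _ => ?_
  ring

lemma gradient_S (t : ℝ) (x : E d) : gradient (S a t) x = -((2:ℝ) • Gr a t x) :=
  (hasGradientAt_S t x).gradient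

lemma Axes.Gr_ne (h : Axes γ a av) {t : ℝ} {x : E d} (hx : S a t x = 0) : Gr a t x ≠ 0 := by
  intro h0
  have : ∀ i, x i = 0 := by
    intro i
    have := congrArg (fun v : E d => v i) h0
    simp only [Gr, PiLp.zero_apply] at this
    have hp := (pow_pos (h.pos i t) 2).ne'
    rcases div_eq_zero_iff.1 this with h1 | h1
    · exact h1
    · exact absurd h1 hp
  simp [S, this] at hx

lemma Axes.continuous_S (h : Axes γ a av) (t : ℝ) : Continuous (S a t) := (h.contDiff_S_space t).continuous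

lemma Axes.isOpen_Om (h : Axes γ a av) (t : ℝ) : IsOpen (Om a t) :=
  isOpen_lt continuous_const (h.continuous_S t)

lemma Axes.frontier_Om (h : Axes γ a av) {t : ℝ} {x : E d} (hx : x ∈ frontier (Om a t)) :
    S a t x = 0 :=
  (frontier_lt_subset_eq continuous_const (h.continuous_S t) hx).symm

lemma Axes.coord_le (h : Axes γ a av) {t : ℝ} {x : E d} (hx : 0 ≤ S a t x) (i : Fin d) :
    |x i| ≤ a i t := by
  unfold S at hx
  have h1 : x i ^ 2 / a i t ^ 2 ≤ ∑ j, x j ^ 2 / a j t ^ 2 :=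
    Finset.single_le_sum (f := fun j => x j ^ 2 / a j t ^ 2) (fun j _ => by positivity)
      (Finset.mem_univ i)
  have h2 : x i ^ 2 / a i t ^ 2 ≤ 1 := by linarith
  have hp := h.pos i t
  rw [div_le_one (by positivity)] at h2
  exact abs_le_of_sq_le_sq h2 hp.le

lemma Axes.norm_le (h : Axes γ a av) {t : ℝ} {x : E d} (hx : 0 ≤ S a t x) :
    ‖x‖ ≤ Real.sqrt (∑ i, a i t ^ 2) := by
  rw [EuclideanSpace.norm_eq]
  apply Real.sqrt_le_sqrt
  refine Finset.sum_le_sum fun i _ => ?_
  have := h.coord_le hx i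
  rw [Real.norm_eq_abs]
  gcongr

lemma Axes.closure_Om_subset (h : Axes γ a av) (t : ℝ) :
    closure (Om a t) ⊆ Metric.closedBall 0 (Real.sqrt (∑ i, a i t ^ 2)) := by
  have h1 : closure (Om a t) ⊆ {x | 0 ≤ S a t x} :=
    closure_minimal (fun x hx => (show 0 < S a t x from hx).le)
      (isClosed_le continuous_const (h.continuous_S t))
  intro x hx
  rw [mem_closedBall_zero_iff]
  exact h.norm_le (h1 hx)

lemma Axes.bounded (h : Axes γ a av) (t : ℝ) : Bornology.IsBounded (Om a t) :=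
  Metric.isBounded_closedBall.subset (subset_closure.trans (h.closure_Om_subset t))

lemma zero_mem (t : ℝ) : (0 : E d) ∈ Om a t := by simp [Om, S]

lemma Axes.rho_pos (h : Axes γ a av) (hA : 0 < A) (hγ : 1 < γ) {t : ℝ} {x : E d} (hx : x ∈ Om a t) :
    0 < rho A γ a t x := by
  have hx' : 0 < S a t x := hx
  unfold rho
  rw [max_eq_left hx'.le]
  have := h.prod_pos t
  have := KK_pos hA hγ
  positivity

lemma rho_zero (hγ : 1 < γ) {t : ℝ} {x : E d} (hx : x ∉ Om a t) : rho A γ a t x = 0 := by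
  have hx' : S a t x ≤ 0 := not_lt.1 hx
  unfold rho
  rw [max_eq_right hx', mul_zero, Real.zero_rpow, mul_zero]
  have : 0 < γ - 1 := by linarith
  positivity

lemma Axes.continuous_rho (h : Axes γ a av) (hγ : 1 < γ) (t : ℝ) : Continuous (rho A γ a t) := by
  unfold rho
  have h1 := h.continuous_S t
  have : 0 ≤ 1 / (γ - 1) := by
    have : 0 < γ - 1 := by linarith
    positivity
  exact continuous_const.mul ((continuous_const.mul (h1.max continuous_const)).rpow_const
    (fun x => Or.inr this))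

lemma Axes.integrable_of (h : Axes γ a av) (t : ℝ) {f : E d → ℝ} (hf : Continuous f)
    (h0 : ∀ x ∉ Om a t, f x = 0) : Integrable f := by
  refine hf.integrable_of_hasCompactSupport ?_
  refine HasCompactSupport.of_support_subset_isCompact
    (isCompact_closedBall (0 : E d) (Real.sqrt (∑ i, a i t ^ 2))) ?_
  intro x hx
  apply h.closure_Om_subset t
  apply subset_closure
  by_contra hn
  exact hx (h0 x hn)

lemma Axes.integrable_rho (h : Axes γ a av) (hγ : 1 < γ) (t : ℝ) : Integrable (rho A γ a t) :=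
  h.integrable_of t (h.continuous_rho hγ t) (fun _ hx => rho_zero hγ hx)

lemma Axes.integrable_energy (h : Axes γ a av) (hγ : 1 < γ) (t : ℝ) :
    Integrable (fun x => rho A γ a t x * ‖vel a av t x‖ ^ 2 / 2 + A * rho A γ a t x ^ γ / (γ - 1)) := by
  refine h.integrable_of t ?_ (fun x hx => ?_)
  · have h1 := h.continuous_rho (A := A) hγ t
    have h2 : Continuous (vel a av t) :=
      (h.contDiff_vel.comp (contDiff_const.prodMk contDiff_id)).continuous
    have h3 : Continuous (fun x => rho A γ a t x ^ γ) := h1.rpow_const (fun x => Or.inr (by linarith))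
    fun_prop
  · rw [rho_zero hγ hx, Real.zero_rpow (by linarith)]
    simp

/-- in the domain the truncation is not seen -/
lemma rho_eq {t : ℝ} {x : E d} (hx : 0 < S a t x) :
    rho A γ a t x = (∏ j, a j t)⁻¹ * (KK A γ * S a t x) ^ (1 / (γ - 1)) := by
  unfold rho
  rw [max_eq_left hx.le]

lemma Axes.contDiffOn (h : Axes γ a av) (hA : 0 < A) (hγ : 1 < γ) :
    ContDiffOn ℝ 1 (fun q : ℝ × E d => (rho A γ a q.1 q.2, vel a av q.1 q.2)) {q | q.2 ∈ Om a q.1} := by
  have h1 : ContDiffOn ℝ 1 (fun q : ℝ × E d => rho A γ a q.1 q.2) {q | q.2 ∈ Om a q.1} := by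
    have h2 : ContDiffOn ℝ 1 (fun q : ℝ × E d => (∏ j, a j q.1)⁻¹ * (KK A γ * S a q.1 q.2) ^ (1 / (γ - 1)))
        {q | q.2 ∈ Om a q.1} := by
      have h3 : ContDiff ℝ 1 (fun q : ℝ × E d => ∏ j, a j q.1) :=
        contDiff_prod fun j _ => ((h.smooth j).1.of_le (mod_cast le_top)).comp contDiff_fst
      have h4 : ContDiff ℝ 1 (fun q : ℝ × E d => S a q.1 q.2) := h.contDiff_S.of_le (mod_cast le_top)
      refine (h3.inv (fun q => (h.prod_pos q.1).ne')).contDiffOn.mul ?_
      refine ContDiffOn.rpow_const_of_ne (contDiff_const.mul h4).contDiffOn (fun q hq => ?_)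
      have h5 : 0 < S a q.1 q.2 := hq
      have := KK_pos hA hγ
      positivity
    exact h2.congr (fun q hq => rho_eq hq)
  exact h1.prodMk (h.contDiff_vel.of_le (mod_cast le_top)).contDiffOn

lemma Axes.hasDerivAt_prod (h : Axes γ a av) (t : ℝ) :
    HasDerivAt (fun s => ∏ j, a j s) ((∏ j, a j t) * ∑ j, av j t / a j t) t := by
  have := HasDerivAt.fun_finsetProd (u := Finset.univ) (f := fun j s => a j s)
    (f' := fun j => av j t) (x := t) (fun j _ => h.ha j t)
  refine this.congr_deriv ?_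
  rw [Finset.mul_sum]
  refine Finset.sum_congr rfl fun j _ => ?_
  rw [← Finset.mul_prod_erase Finset.univ (fun j => a j t) (Finset.mem_univ j)]
  have := (h.pos j t).ne'
  simp only [smul_eq_mul]
  field_simp

lemma Axes.hasDerivAt_rho (h : Axes γ a av) (hA : 0 < A) (hγ : 1 < γ) {t : ℝ} {x : E d}
    (hx : x ∈ Om a t) : HasDerivAt (fun s => rho A γ a s x)
      (rho A γ a t x * (-(∑ j, av j t / a j t) +
        1 / (γ - 1) * (∑ i, 2 * x i ^ 2 * av i t / a i t ^ 3) / S a t x)) t := by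
  have hS : 0 < S a t x := hx
  have hK := KK_pos hA hγ
  have hKS : 0 < KK A γ * S a t x := by positivity
  have hD := h.prod_pos t
  have hev : (fun s => rho A γ a s x) =ᶠ[𝓝 t]
      fun s => (∏ j, a j s)⁻¹ * (KK A γ * S a s x) ^ (1 / (γ - 1)) := by
    have : ∀ᶠ s in 𝓝 t, 0 < S a s x :=
      (h.hasDerivAt_S t x).continuousAt.eventually (lt_mem_nhds hS)
    filter_upwards [this] with s hs
    exact rho_eq hs
  refine HasDerivAt.congr_of_eventuallyEq ?_ hev
  have h1 := (h.hasDerivAt_prod t).inv hD.ne'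
  have h2 := ((h.hasDerivAt_S t x).const_mul (KK A γ)).rpow_const (p := 1 / (γ - 1)) (Or.inl hKS.ne')
  refine (h1.mul h2).congr_deriv ?_
  rw [rho_eq hS, Real.rpow_sub_one hKS.ne']
  simp only [Pi.inv_apply]
  field_simp

lemma Axes.hasFDerivAt_rho (h : Axes γ a av) (hA : 0 < A) (hγ : 1 < γ) {t : ℝ} {x : E d}
    (hx : x ∈ Om a t) : HasFDerivAt (rho A γ a t)
      ((rho A γ a t x * (1 / (γ - 1)) / S a t x) • (∑ i, (-(2 * x i / a i t ^ 2)) • pr i)) x := by
  have hS : 0 < S a t x := hx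
  have hK := KK_pos hA hγ
  have hKS : 0 < KK A γ * S a t x := by positivity
  have hD := h.prod_pos t
  have hev : (rho A γ a t) =ᶠ[𝓝 x]
      fun y => (∏ j, a j t)⁻¹ * (KK A γ * S a t y) ^ (1 / (γ - 1)) := by
    have : ∀ᶠ y in 𝓝 x, 0 < S a t y :=
      (h.continuous_S t).continuousAt.eventually (lt_mem_nhds hS)
    filter_upwards [this] with y hy
    exact rho_eq hy
  refine HasFDerivAt.congr_of_eventuallyEq ?_ hev
  have h2 := (((hasFDerivAt_S (a := a) t x).const_mul (KK A γ)).rpow_const (p := 1 / (γ - 1))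
    (Or.inl hKS.ne')).const_mul ((∏ j, a j t)⁻¹)
  refine h2.congr_fderiv ?_
  rw [rho_eq hS, Real.rpow_sub_one hKS.ne', smul_smul, smul_smul]
  congr 1
  field_simp

end Pool.Agent.KS6_2.GC2.Gas
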