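import Mathlib
import Pool.Agent.KS6_2.GC2.GasOde

set_option autoImplicit false

open Set Real Filter Topology
open scoped NNReal

namespace Pool.Agent.KS6_2.GC2

section Gen

variable {γ δ z w c : ℝ}

lemma region_pos (hz : 1 ≤ z) (hw : |w| ≤ z / 2) : 0 < z ^ 2 - w ^ 2 := by
  have hw2 : w ^ 2 ≤ (z / 2) ^ 2 := by rw [← sq_abs w]; gcongr
  nlinarith

lemma wt_eq' (hz : 1 ≤ z) (hw : |w| ≤ z / 2) : wt (z, w, c) = w := by
  have h1 : zt (z, w, c) = z := max_eq_left hz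
  unfold wt
  rw [h1]
  have := abs_le.1 hw
  rw [min_eq_left this.2, max_eq_right this.1]

lemma F1_eq' (hz : 1 ≤ z) (hw : |w| ≤ z / 2) (hc : 1 ≤ c) : F1 γ δ (z, w, c) = Phi γ δ z w c * z := by
  have h1 : zt (z, w, c) = z := max_eq_left hz
  have h2 : ct (z, w, c) = c := max_eq_left hc
  unfold F1 xt
  rw [wt_eq' hz hw, h1, h2, Phi_id hz hw]

lemma F2_eq' (hz : 1 ≤ z) (hw : |w| ≤ z / 2) (hc : 1 ≤ c) :
    F2 γ δ (z, w, c) = -(Phi γ δ z w c * w) := by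
  have h1 : zt (z, w, c) = z := max_eq_left hz
  unfold F2
  rw [F1_eq' hz hw hc]
  unfold xt
  rw [wt_eq' hz hw, h1]
  have : z ≠ 0 := by linarith
  field_simp

lemma F3_eq' (hz : 1 ≤ z) (hw : |w| ≤ z / 2) (hc : 1 ≤ c) :
    F3 γ δ (z, w, c) = Phi γ δ z w c * (z ^ 2 - w ^ 2) / c := by
  have h1 : zt (z, w, c) = z := max_eq_left hz
  have h2 : ct (z, w, c) = c := max_eq_left hc
  have hz0 : 0 < z := by linarith
  have hc0 : 0 < c := by linarith
  have hP := region_pos hz hw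
  unfold F3 xt
  rw [wt_eq' hz hw, h1, h2]
  have k := Phi_id (γ := γ) (δ := δ) (c := c) hz hw
  have hx : 0 < 1 - (w / z) ^ 2 := by
    have e : 1 - (w / z) ^ 2 = (z ^ 2 - w ^ 2) / z ^ 2 := by field_simp
    rw [e]; positivity
  have e1 : (1 - (w / z) ^ 2) ^ (1 - γ) = (1 - (w / z) ^ 2) * (1 - (w / z) ^ 2) ^ (-γ) := by
    rw [show (1 - γ) = 1 + (-γ) by ring, Real.rpow_add hx, Real.rpow_one]
  have e2 : z ^ (2 - 2 * γ) = z * z ^ (1 - 2 * γ) := by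
    rw [show (2 - 2 * γ) = 1 + (1 - 2 * γ) by ring, Real.rpow_add hz0, Real.rpow_one]
  have e3 : c ^ (-δ - 1) = c ^ (-δ) / c := by
    rw [Real.rpow_sub hc0, Real.rpow_one]
  rw [e1, e2, e3]
  calc (1 - (w / z) ^ 2) * (1 - (w / z) ^ 2) ^ (-γ) * (z * z ^ (1 - 2 * γ)) * (c ^ (-δ) / c)
      = (1 - (w / z) ^ 2) * z / c *
        ((1 - (w / z) ^ 2) ^ (-γ) * z ^ (1 - 2 * γ) * c ^ (-δ)) := by ring
    _ = (1 - (w / z) ^ 2) * z / c * (Phi γ δ z w c * z) := by rw [k]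
    _ = _ := by field_simp

end Gen

variable {γ δ s : ℝ} {z w c zv wv cv : ℝ → ℝ}

/-- smallness of `s` -/
structure Small (γ δ s : ℝ) : Prop where
  pos : 0 < s
  le1 : s ≤ 1 / 4
  le2 : s ≤ q0 γ δ / 4
  lt3 : γ * s ^ 2 < (γ - 1) * (q0 γ δ ^ 2 / 2)

lemma exists_small (hγ : 1 < γ) (hδ : 0 ≤ δ) : Small γ δ ((γ - 1) / γ * (q0 γ δ ^ 2 / 8)) := by
  have hq := q0_pos (γ := γ) (δ := δ)
  have hq1 := q0_le_one (γ := γ) (δ := δ) hγ hδ
  have hg0 : 0 < γ := by linarith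
  have hr : (γ - 1) / γ ≤ 1 := by rw [div_le_one hg0]; linarith
  have hr0 : 0 < (γ - 1) / γ := div_pos (by linarith) hg0
  have hq2 : q0 γ δ ^ 2 ≤ q0 γ δ := by nlinarith
  have key : (γ - 1) / γ * (q0 γ δ ^ 2 / 8) ≤ q0 γ δ ^ 2 / 8 := by
    calc _ ≤ 1 * (q0 γ δ ^ 2 / 8) := by gcongr
      _ = _ := one_mul _
  refine ⟨by positivity, by linarith, by linarith, ?_⟩
  have e : γ * ((γ - 1) / γ * (q0 γ δ ^ 2 / 8)) ^ 2 =
      (γ - 1) * ((γ - 1) / γ * (q0 γ δ ^ 2 / 8) ^ 2) := by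
    field_simp
  rw [e]
  have hg1 : 0 < γ - 1 := by linarith
  apply mul_lt_mul_of_pos_left _ hg1
  calc (γ - 1) / γ * (q0 γ δ ^ 2 / 8) ^ 2 ≤ 1 * (q0 γ δ ^ 2 / 8) ^ 2 := by gcongr
    _ = q0 γ δ ^ 2 * (q0 γ δ ^ 2 / 64) := by ring
    _ ≤ q0 γ δ ^ 2 * (1 / 64) := by
        have : q0 γ δ ^ 2 ≤ 1 := by nlinarith
        gcongr
    _ < q0 γ δ ^ 2 / 2 := by
        have : 0 < q0 γ δ ^ 2 := by positivity
        linarith

/-- facts as long as `w` is positive -/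
lemma Sys.on_pos (h : Sys γ δ s z w c zv wv cv) (hs : Small γ δ s) (hγ : 1 < γ) (hδ : 0 ≤ δ) {T : ℝ}
    (hT : ∀ t ∈ Ioo 0 T, 0 < w t) {t : ℝ} (ht : t ∈ Icc 0 T) :
    wv t ≤ s ∧ w t ≤ s * t ∧ 0 ≤ w t ∧ |w t| ≤ z t / 2 := by
  have h1 := h.wv_le_of hT ht
  have h2 : w t ≤ s * t := by
    have := upper_bd h.hw (m := s) ht.1 (fun τ hτ => h.wv_le_of hT ⟨hτ.1, hτ.2.trans ht.2⟩)
    rw [h.w0] at this
    linarith
  have h3 : 0 ≤ w t := by
    rcases eq_or_lt_of_le ht.1 with h0 | h0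
    · rw [← h0, h.w0]
    · rcases eq_or_lt_of_le ht.2 with h1 | h1
      · have hcl : t ∈ closure (Ioo 0 T) := by
          rw [closure_Ioo (by rw [← h1]; exact h0.ne)]
          exact ht
        have hcont : Continuous w := continuous_iff_continuousAt.2 fun t => (h.hw t).continuousAt
        exact closure_minimal (fun x hx => (hT x hx).le) (isClosed_le continuous_const hcont) hcl
      · exact (hT t ⟨h0, h1⟩).le
  refine ⟨h1, h2, h3, ?_⟩
  rw [abs_of_nonneg h3]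
  have hz1 := h.one_le_z ht.1
  have hq := q0_pos (γ := γ) (δ := δ)
  rcases le_total t 1 with h4 | h4
  · have : s * t ≤ 1 / 4 := by
      calc s * t ≤ s * 1 := by gcongr; exact hs.pos.le
        _ ≤ 1 / 4 := by linarith [hs.le1]
    linarith
  · have := h.z_ge hγ hδ h4
    have h5 : s * t ≤ q0 γ δ / 4 * t := by
      have := hs.le2
      gcongr
    linarith

/-- the Wronskian -/
noncomputable def Wr (γ δ : ℝ) (z w c zv wv : ℝ → ℝ) (t : ℝ) : ℝ :=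
  wv t * zv t - Phi γ δ (z t) (w t) (c t) * w t * z t

lemma Sys.hasDerivAt_Phi (h : Sys γ δ s z w c zv wv cv) {t : ℝ} (hP : 0 < z t ^ 2 - w t ^ 2)
    (hc : 0 < c t) : HasDerivAt (fun t => Phi γ δ (z t) (w t) (c t))
      (-(γ * (z t ^ 2 - w t ^ 2) ^ (-γ - 1) * (2 * (z t * zv t - w t * wv t)) * c t ^ (-δ)) -
        (z t ^ 2 - w t ^ 2) ^ (-γ) * (δ * c t ^ (-δ - 1) * cv t)) t := by
  have hp : HasDerivAt (fun t => z t ^ 2 - w t ^ 2) (2 * (z t * zv t - w t * wv t)) t := by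
    have := ((h.hz t).pow 2).sub ((h.hw t).pow 2)
    refine this.congr_deriv ?_
    push_cast
    ring
  have h1 := hp.rpow_const (p := -γ) (Or.inl hP.ne')
  have h2 := (h.hc t).rpow_const (p := -δ) (Or.inl hc.ne')
  have := h1.mul h2
  refine this.congr_deriv ?_
  ring

lemma Sys.hasDerivAt_Wr (h : Sys γ δ s z w c zv wv cv) {t : ℝ} (hz : 1 ≤ z t)
    (hw : |w t| ≤ z t / 2) (hc : 1 ≤ c t) :
    HasDerivAt (Wr γ δ z w c zv wv)
      (w t * (2 * (z t ^ 2 - w t ^ 2) ^ (-γ - 1) * c t ^ (-δ) *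
        ((γ - 1) * z t ^ 2 * zv t + w t ^ 2 * zv t - γ * z t * w t * wv t)
        + z t * ((z t ^ 2 - w t ^ 2) ^ (-γ) * (δ * c t ^ (-δ - 1) * cv t)))) t := by
  have hP := region_pos hz hw
  have hc0 : 0 < c t := by linarith
  have h1 := h.hasDerivAt_Phi (γ := γ) (δ := δ) hP hc0
  have h2 := ((h.hwv t).mul (h.hzv t)).sub ((h1.mul (h.hw t)).mul (h.hz t))
  refine h2.congr_deriv ?_
  rw [F1_eq' hz hw hc, F2_eq' hz hw hc]
  have e : (z t ^ 2 - w t ^ 2) ^ (-γ) = (z t ^ 2 - w t ^ 2) * (z t ^ 2 - w t ^ 2) ^ (-γ - 1) := by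
    have : (z t ^ 2 - w t ^ 2) ^ (-γ) = (z t ^ 2 - w t ^ 2) ^ (1 + (-γ - 1)) := by ring_nf
    rw [this, Real.rpow_add hP, Real.rpow_one]
  simp only [Phi, Pi.mul_apply]
  rw [e]
  ring

lemma Sys.Wr_strict (h : Sys γ δ s z w c zv wv cv) (hs : Small γ δ s) (hγ : 1 < γ) (hδ : 0 ≤ δ) {T : ℝ}
    (hT : ∀ t ∈ Ioo 0 T, 0 < w t) : StrictMonoOn (Wr γ δ z w c zv wv) (Icc 0 T) := by
  have hd : ∀ t ∈ Icc 0 T, HasDerivAt (Wr γ δ z w c zv wv)
      (w t * (2 * (z t ^ 2 - w t ^ 2) ^ (-γ - 1) * c t ^ (-δ) *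
        ((γ - 1) * z t ^ 2 * zv t + w t ^ 2 * zv t - γ * z t * w t * wv t)
        + z t * ((z t ^ 2 - w t ^ 2) ^ (-γ) * (δ * c t ^ (-δ - 1) * cv t)))) t := fun t ht =>
    h.hasDerivAt_Wr (h.one_le_z ht.1) (h.on_pos hs hγ hδ hT ht).2.2.2 (h.one_le_c ht.1)
  refine strictMonoOn_of_deriv_pos (convex_Icc 0 T) (fun t ht => (hd t ht).continuousAt.continuousWithinAt)
    (fun t ht => ?_)
  rw [interior_Icc] at ht
  have ht' := Ioo_subset_Icc_self ht
  rw [(hd t ht').deriv]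
  obtain ⟨a1, a2, a3, a4⟩ := h.on_pos hs hγ hδ hT ht'
  have hz1 := h.one_le_z ht.1.le
  have hc1 := h.one_le_c ht.1.le
  have hP := region_pos hz1 a4
  have hw0 := hT t ht
  have hzv := h.zv_nonneg ht.1.le
  have hcv := h.cv_nonneg ht.1.le
  have hc0 : 0 < c t := by linarith
  have hz0 : 0 < z t := by linarith
  have hzz := h.zzv_ge hγ hδ ht.1.le
  have key : 0 < (γ - 1) * z t ^ 2 * zv t + w t ^ 2 * zv t - γ * z t * w t * wv t := by
    have b1 : w t * wv t ≤ s ^ 2 * t := by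
      calc w t * wv t ≤ w t * s := by gcongr
        _ ≤ (s * t) * s := by gcongr; exact hs.pos.le
        _ = s ^ 2 * t := by ring
    have b2 : γ * (w t * wv t) < (γ - 1) * (z t * zv t) := by
      calc γ * (w t * wv t) ≤ γ * (s ^ 2 * t) := by gcongr
        _ = (γ * s ^ 2) * t := by ring
        _ < ((γ - 1) * (q0 γ δ ^ 2 / 2)) * t := mul_lt_mul_of_pos_right hs.lt3 ht.1
        _ = (γ - 1) * (q0 γ δ ^ 2 / 2 * t) := by ring
        _ ≤ (γ - 1) * (z t * zv t) := by gcongr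
    have b3 : 0 ≤ w t ^ 2 * zv t := by positivity
    nlinarith
  have k1 : 0 < 2 * (z t ^ 2 - w t ^ 2) ^ (-γ - 1) * c t ^ (-δ) *
      ((γ - 1) * z t ^ 2 * zv t + w t ^ 2 * zv t - γ * z t * w t * wv t) := by
    apply mul_pos _ key
    positivity
  have k2 : 0 ≤ z t * ((z t ^ 2 - w t ^ 2) ^ (-γ) * (δ * c t ^ (-δ - 1) * cv t)) := by
    have : 0 ≤ (z t ^ 2 - w t ^ 2) ^ (-γ) := Real.rpow_nonneg hP.le _
    positivity
  positivity

lemma Sys.Wr_zero (h : Sys γ δ s z w c zv wv cv) : Wr γ δ z w c zv wv 0 = 0 := by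
  unfold Wr
  rw [h.zv0, h.w0]
  ring

lemma Sys.w_pos (h : Sys γ δ s z w c zv wv cv) (hs : Small γ δ s) (hγ : 1 < γ) (hδ : 0 ≤ δ)
    {t : ℝ} (ht : 0 < t) : 0 < w t := by
  have hcw : Continuous w := continuous_iff_continuousAt.2 fun t => (h.hw t).continuousAt
  have hcwv : Continuous wv := continuous_iff_continuousAt.2 fun t => (h.hwv t).continuousAt
  by_contra hcon
  push Not at hcon
  set S : Set ℝ := {t | 0 < t ∧ w t ≤ 0} with hS
  have hSne : S.Nonempty := ⟨t, ht, hcon⟩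
  have hSb : BddBelow S := ⟨0, fun x hx => hx.1.le⟩
  -- near zero
  obtain ⟨ε, hε, hpos⟩ : ∃ ε > 0, ∀ t ∈ Ioo 0 ε, 0 < w t := by
    have h1 : ∀ᶠ t in 𝓝 (0:ℝ), s / 2 < wv t := by
      have : Tendsto wv (𝓝 0) (𝓝 (wv 0)) := hcwv.continuousAt
      apply this.eventually (lt_mem_nhds _)
      rw [h.wv0]
      linarith [hs.pos]
    obtain ⟨ε, hε, hb⟩ := Metric.eventually_nhds_iff_ball.1 h1
    refine ⟨ε, hε, fun τ hτ => ?_⟩
    have := lower_bd h.hw (m := s / 2) hτ.1.le (fun x hx => (hb x (by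
      rw [Metric.mem_ball, Real.dist_eq, sub_zero, abs_of_nonneg hx.1]
      linarith [hx.2, hτ.2])).le)
    rw [h.w0] at this
    have h3 : 0 < s / 2 * (τ - 0) := by
      have := hs.pos
      have := hτ.1
      rw [sub_zero]
      positivity
    linarith
  set T := sInf S with hT
  have hTε : ε ≤ T := by
    apply le_csInf hSne
    intro x hx
    by_contra hlt
    push Not at hlt
    exact absurd (hpos x ⟨hx.1, hlt⟩) (not_lt.2 hx.2)
  have hT0 : 0 < T := lt_of_lt_of_le hε hTε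
  have hpT : ∀ t ∈ Ioo 0 T, 0 < w t := by
    intro τ hτ
    by_contra hle
    push Not at hle
    have : T ≤ τ := csInf_le hSb ⟨hτ.1, hle⟩
    linarith [hτ.2]
  have hwT : w T ≤ 0 := by
    have h1 : T ∈ closure S := csInf_mem_closure hSne hSb
    exact closure_minimal (fun x hx => hx.2) (isClosed_le hcw continuous_const) h1
  have hTm : T ∈ Icc 0 T := ⟨hT0.le, le_refl _⟩
  obtain ⟨a1, a2, a3, a4⟩ := h.on_pos hs hγ hδ hpT hTm
  have hw0 : w T = 0 := le_antisymm hwT a3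
  have hW := h.Wr_strict hs hγ hδ hpT ⟨le_refl _, hT0.le⟩ hTm hT0
  rw [h.Wr_zero] at hW
  unfold Wr at hW
  rw [hw0] at hW
  have hzv := h.zv_nonneg hT0.le
  have hwv : 0 < wv T := by
    by_contra hle
    push Not at hle
    nlinarith
  have h1 : ∀ᶠ t in 𝓝 T, 0 < wv t := hcwv.continuousAt.eventually (lt_mem_nhds hwv)
  obtain ⟨η, hη, hb⟩ := Metric.eventually_nhds_iff_ball.1 h1
  set τ := max (T / 2) (T - η / 2) with hτ
  have hτT : τ < T := max_lt (by linarith) (by linarith)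
  have hτ0 : 0 < τ := lt_of_lt_of_le (by linarith) (le_max_left _ _)
  have := lower_bd h.hw (m := 0) hτT.le (fun x hx => (hb x (by
    rw [Metric.mem_ball, Real.dist_eq, abs_lt]
    have : T - η / 2 ≤ τ := le_max_right _ _
    constructor <;> linarith [hx.1, hx.2])).le)
  have hp := hpT τ ⟨hτ0, hτT⟩
  linarith

lemma Sys.facts (h : Sys γ δ s z w c zv wv cv) (hs : Small γ δ s) (hγ : 1 < γ) (hδ : 0 ≤ δ)
    {t : ℝ} (ht : 0 ≤ t) : wv t ≤ s ∧ w t ≤ s * t ∧ 0 ≤ w t ∧ |w t| ≤ z t / 2 :=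
  h.on_pos hs hγ hδ (T := t) (fun _ hτ => h.w_pos hs hγ hδ hτ.1) ⟨ht, le_refl _⟩

lemma Sys.region (h : Sys γ δ s z w c zv wv cv) (hs : Small γ δ s) (hγ : 1 < γ) (hδ : 0 ≤ δ)
    (t : ℝ) : 1 ≤ z t ∧ |w t| ≤ z t / 2 ∧ 1 ≤ c t := by
  rcases le_total 0 t with ht | ht
  · exact ⟨h.one_le_z ht, (h.facts hs hγ hδ ht).2.2.2, h.one_le_c ht⟩
  · have ht' : 0 ≤ -t := by linarith
    obtain ⟨e1, e2, e3⟩ := h.sym t
    have a := h.one_le_z ht'
    have b := (h.facts hs hγ hδ ht').2.2.2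
    have d := h.one_le_c ht'
    rw [e1] at a b
    rw [e2, abs_neg] at b
    rw [e3] at d
    exact ⟨a, b, d⟩

/-- conservation of energy -/
lemma Sys.energy {n : ℕ} {γ s : ℝ} (h : Sys γ ((γ - 1) * n) s z w c zv wv cv)
    (hs : Small γ ((γ - 1) * n) s) (hγ : 1 < γ) {t : ℝ} (ht : 0 ≤ t) :
    zv t ^ 2 ≤ s ^ 2 + 1 / (γ - 1) := by
  have hδ : 0 ≤ (γ - 1) * n := mul_nonneg (by linarith) n.cast_nonneg
  have hg1 : 0 < γ - 1 := by linarith
  have hreg := h.region hs hγ hδ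
  have hE : ∀ t, HasDerivAt (fun t => zv t ^ 2 + wv t ^ 2 + n / 2 * cv t ^ 2 +
      1 / (γ - 1) * ((z t ^ 2 - w t ^ 2) ^ (1 - γ) * c t ^ (-((γ - 1) * n)))) 0 t := by
    intro t
    obtain ⟨hz, hw, hc⟩ := hreg t
    have hP := region_pos hz hw
    have hc0 : 0 < c t := by linarith
    have hp : HasDerivAt (fun t => z t ^ 2 - w t ^ 2) (2 * (z t * zv t - w t * wv t)) t := by
      have := ((h.hz t).pow 2).sub ((h.hw t).pow 2)
      refine this.congr_deriv ?_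
      push_cast
      ring
    have h1 := hp.rpow_const (p := 1 - γ) (Or.inl hP.ne')
    have h2 := (h.hc t).rpow_const (p := -((γ - 1) * n)) (Or.inl hc0.ne')
    have h3 := (((h.hzv t).pow 2).add ((h.hwv t).pow 2)).add (((h.hcv t).pow 2).const_mul ((n:ℝ) / 2))
    have h4 := h3.add ((h1.mul h2).const_mul (1 / (γ - 1)))
    refine h4.congr_deriv ?_
    rw [F1_eq' hz hw hc, F2_eq' hz hw hc, F3_eq' hz hw hc]
    have e1 : (z t ^ 2 - w t ^ 2) ^ (1 - γ - 1) = (z t ^ 2 - w t ^ 2) ^ (-γ) := by ring_nf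
    have e2 : (z t ^ 2 - w t ^ 2) ^ (1 - γ) = (z t ^ 2 - w t ^ 2) * (z t ^ 2 - w t ^ 2) ^ (-γ) := by
      rw [show (1 - γ) = 1 + (-γ) by ring, Real.rpow_add hP, Real.rpow_one]
    have e3 : c t ^ (-((γ - 1) * n) - 1) = c t ^ (-((γ - 1) * n)) / c t := by
      rw [Real.rpow_sub hc0, Real.rpow_one]
    simp only [Phi]
    rw [e1, e2, e3]
    have hg : γ - 1 ≠ 0 := hg1.ne'
    field_simp
    ring
  have := upper_bd hE (m := 0) ht (fun _ _ => le_refl _)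
  simp only [h.zv0, h.wv0, h.cv0, h.z0, h.w0, h.c0, zero_mul, add_zero] at this
  obtain ⟨hz, hw, hc⟩ := hreg t
  have hP := region_pos hz hw
  have hc0 : 0 < c t := by linarith
  have p1 : 0 ≤ 1 / (γ - 1) * ((z t ^ 2 - w t ^ 2) ^ (1 - γ) * c t ^ (-((γ - 1) * n))) := by positivity
  have p2 : 0 ≤ (n:ℝ) / 2 * cv t ^ 2 := by positivity
  have p3 : 0 ≤ wv t ^ 2 := by positivity
  norm_num at this p1
  norm_num
  linarith

/-- **The motion**: it is eternal, and the two first semi-axes exchange their roles in the past and in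
the future, in a quantitative way. -/
theorem exists_motion (n : ℕ) {γ : ℝ} (hγ : 1 < γ) :
    ∃ (z w c zv wv cv : ℝ → ℝ) (κ : ℝ), 0 < κ ∧
      (∀ t, HasDerivAt z (zv t) t) ∧ (∀ t, HasDerivAt w (wv t) t) ∧ (∀ t, HasDerivAt c (cv t) t) ∧
      (∀ t, HasDerivAt zv (Phi γ ((γ - 1) * n) (z t) (w t) (c t) * z t) t) ∧
      (∀ t, HasDerivAt wv (-(Phi γ ((γ - 1) * n) (z t) (w t) (c t) * w t)) t) ∧
      (∀ t, HasDerivAt cv (Phi γ ((γ - 1) * n) (z t) (w t) (c t) * (z t ^ 2 - w t ^ 2) / c t) t) ∧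
      (∀ t, 1 ≤ z t ∧ |w t| ≤ z t / 2 ∧ 1 ≤ c t) ∧
      (∀ t, z (-t) = z t ∧ w (-t) = - w t ∧ c (-t) = c t) ∧
      (∀ t, 2 ≤ t → κ * t ≤ w t) := by
  have hδ : 0 ≤ (γ - 1) * n := mul_nonneg (by linarith) n.cast_nonneg
  have hs := exists_small (γ := γ) (δ := (γ - 1) * n) hγ hδ
  set s := (γ - 1) / γ * (q0 γ ((γ - 1) * n) ^ 2 / 8) with hs'
  obtain ⟨z, w, c, zv, wv, cv, h⟩ := exists_sys (γ := γ) (δ := (γ - 1) * n) hγ.le hδ s
  have hreg := h.region hs hγ hδ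
  have hg1 : 0 < γ - 1 := by linarith
  -- lower bound of the Wronskian
  have hWpos : ∀ t, 0 < t → 0 < Wr γ ((γ - 1) * n) z w c zv wv t := by
    intro t ht
    have := h.Wr_strict hs hγ hδ (T := t) (fun _ hτ => h.w_pos hs hγ hδ hτ.1) ⟨le_refl _, ht.le⟩
      ⟨ht.le, le_refl _⟩ ht
    rwa [h.Wr_zero] at this
  have hWm : ∀ t, 1 ≤ t → Wr γ ((γ - 1) * n) z w c zv wv 1 ≤ Wr γ ((γ - 1) * n) z w c zv wv t := by
    intro t ht
    rcases eq_or_lt_of_le ht with h1 | h1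
    · rw [← h1]
    · exact (h.Wr_strict hs hγ hδ (T := t) (fun _ hτ => h.w_pos hs hγ hδ hτ.1)
        ⟨by norm_num, ht⟩ ⟨by linarith, le_refl _⟩ h1).le
  set m := Wr γ ((γ - 1) * n) z w c zv wv 1 with hm
  have hm0 : 0 < m := hWpos 1 one_pos
  set Z := Real.sqrt (s ^ 2 + 1 / (γ - 1)) with hZ
  have hZ0 : 0 < Z := Real.sqrt_pos.2 (by have := hs.pos; positivity)
  have hzvZ : ∀ t, 0 ≤ t → zv t ≤ Z := fun t ht => Real.le_sqrt_of_sq_le (h.energy hs hγ ht)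
  have hwv : ∀ t, 1 ≤ t → m / Z ≤ wv t := by
    intro t ht
    have ht0 : 0 ≤ t := by linarith
    have h1 := hWm t ht
    have h2 : 0 ≤ Phi γ ((γ - 1) * n) (z t) (w t) (c t) * w t * z t := by
      obtain ⟨hz, hw, hc⟩ := hreg t
      have hP := region_pos hz hw
      have hc0 : 0 < c t := by linarith
      have hw0 := (h.facts hs hγ hδ ht0).2.2.1
      unfold Phi
      have : 0 < z t := by linarith
      positivity
    unfold Wr at h1
    have h3 : m ≤ wv t * zv t := by linarith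
    have h4 := h.zv_nonneg ht0
    have h5 : 0 < wv t := by
      by_contra hle
      push Not at hle
      nlinarith
    rw [div_le_iff₀ hZ0]
    have := hzvZ t ht0
    nlinarith
  refine ⟨z, w, c, zv, wv, cv, m / Z / 2, by positivity, h.hz, h.hw, h.hc, ?_, ?_, ?_, hreg, h.sym, ?_⟩
  · intro t
    obtain ⟨hz, hw, hc⟩ := hreg t
    have := h.hzv t
    rwa [F1_eq' hz hw hc] at this
  · intro t
    obtain ⟨hz, hw, hc⟩ := hreg t
    have := h.hwv t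
    rwa [F2_eq' hz hw hc] at this
  · intro t
    obtain ⟨hz, hw, hc⟩ := hreg t
    have := h.hcv t
    rwa [F3_eq' hz hw hc] at this
  · intro t ht
    have h1 := lower_bd h.hw (a := 1) (b := t) (m := m / Z) (by linarith) (fun τ hτ => hwv τ hτ.1)
    have h2 := (h.facts hs hγ hδ (t := 1) (by norm_num)).2.2.1
    have h3 : 0 < m / Z := by positivity
    nlinarith

end Pool.Agent.KS6_2.GC2
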