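import Mathlib
import Pool.Agent.KS6_2.GC2.GasFlow

set_option autoImplicit false

open Set Real Filter Topology MeasureTheory
open scoped NNReal ContDiff

namespace Pool.Agent.KS6_2.GC2.Gas

variable {d : ℕ} {γ A : ℝ} {a av : Fin d → ℝ → ℝ}

/-- the partial derivative -/
noncomputable def pd (i : Fin d) (f : E d → ℝ) (x : E d) : ℝ := fderiv ℝ f x (EuclideanSpace.single i 1)

lemma pd_eq {i : Fin d} {f : E d → ℝ} {L : E d →L[ℝ] ℝ} {x : E d} (h : HasFDerivAt f L x) :
    pd i f x = L (EuclideanSpace.single i 1) := by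
  rw [pd, h.fderiv]

lemma hasFDerivAt_vel (t : ℝ) (i : Fin d) (x : E d) :
    HasFDerivAt (fun y : E d => vel a av t y i) ((av i t / a i t) • pr i) x := by
  have h1 : HasFDerivAt (fun y : E d => y i) (pr i) x := (pr i).hasFDerivAt
  exact h1.const_mul _

lemma Axes.hasDerivAt_vel (h : Axes γ a av) (t : ℝ) (i : Fin d) (x : E d) :
    HasDerivAt (fun s => vel a av s x i)
      (((∏ j, a j t) ^ (1 - γ) / a i t ^ 2 - (av i t / a i t) ^ 2) * x i) t := by
  have h1 := ((h.hav i t).div (h.ha i t) (h.pos i t).ne').mul_const (x i)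
  refine h1.congr_deriv ?_
  have := (h.pos i t).ne'
  field_simp

lemma rho_rpow (hA : 0 < A) (hγ : 1 < γ) (h : Axes γ a av) (t : ℝ) (x : E d) :
    rho A γ a t x ^ (γ - 1) = (∏ j, a j t) ^ (1 - γ) * (KK A γ * max (S a t x) 0) := by
  have hg : 0 < γ - 1 := by linarith
  have hD := h.prod_pos t
  have hK := KK_pos hA hγ
  have hn : 0 ≤ KK A γ * max (S a t x) 0 := mul_nonneg hK.le (le_max_right _ _)
  unfold rho
  rw [Real.mul_rpow (by positivity) (Real.rpow_nonneg hn _), ← Real.rpow_mul hn, Real.inv_rpow hD.le,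
    ← Real.rpow_neg hD.le]
  congr 2
  · ring
  · rw [one_div, inv_mul_cancel₀ hg.ne', Real.rpow_one]

/-- the key identity: transport of the defining function -/
lemma Axes.transport (h : Axes γ a av) (t : ℝ) (x : E d) :
    (∑ i, 2 * x i ^ 2 * av i t / a i t ^ 3) + ∑ i, (-(2 * x i / a i t ^ 2)) * vel a av t x i = 0 := by
  rw [← Finset.sum_add_distrib]
  refine Finset.sum_eq_zero fun i _ => ?_
  simp only [vel]
  have := (h.pos i t).ne'
  field_simp
  ring

lemma sum_pr (c : Fin d → ℝ) (i : Fin d) :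
    (∑ j, c j • pr j : E d →L[ℝ] ℝ) (EuclideanSpace.single i 1) = c i := by
  simp [PiLp.single_apply]

lemma Axes.mass (h : Axes γ a av) (hA : 0 < A) (hγ : 1 < γ) {t : ℝ} {x : E d} (hx : x ∈ Om a t) :
    deriv (fun s => rho A γ a s x) t +
      ∑ i, pd i (fun y => rho A γ a t y * vel a av t y i) x = 0 := by
  have hS : 0 < S a t x := hx
  have hr := h.hasFDerivAt_rho hA hγ hx
  rw [(h.hasDerivAt_rho hA hγ hx).deriv]
  have e : ∀ i, pd i (fun y => rho A γ a t y * vel a av t y i) x =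
      rho A γ a t x * (av i t / a i t) +
      rho A γ a t x * (1 / (γ - 1)) / S a t x * ((-(2 * x i / a i t ^ 2)) * vel a av t x i) := by
    intro i
    rw [pd_eq (hr.fun_mul (hasFDerivAt_vel t i x))]
    simp only [ContinuousLinearMap.add_apply, ContinuousLinearMap.smul_apply, smul_eq_mul, sum_pr]
    simp
    ring
  simp only [e, Finset.sum_add_distrib, ← Finset.mul_sum]
  have ht := h.transport t x
  have hg : γ - 1 ≠ 0 := by linarith
  have e2 : (∑ i, 2 * x i ^ 2 * av i t / a i t ^ 3) = -∑ i, (-(2 * x i / a i t ^ 2)) * vel a av t x i := by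
    linarith
  rw [e2]
  field_simp
  ring

lemma Axes.momentum (h : Axes γ a av) (hA : 0 < A) (hγ : 1 < γ) {t : ℝ} {x : E d} (hx : x ∈ Om a t)
    (j : Fin d) :
    deriv (fun s => rho A γ a s x * vel a av s x j) t +
      ∑ i, pd i (fun y => rho A γ a t y * vel a av t y i * vel a av t y j) x +
      pd j (fun y => A * rho A γ a t y ^ γ) x = 0 := by
  have hS : 0 < S a t x := hx
  have hg : 0 < γ - 1 := by linarith
  have hrho := h.rho_pos hA hγ hx
  have hr := h.hasFDerivAt_rho hA hγ hx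
  have hrt := h.hasDerivAt_rho hA hγ hx
  have hm := h.mass hA hγ hx
  rw [(hrt.fun_mul (h.hasDerivAt_vel t j x)).deriv]
  rw [hrt.deriv] at hm
  have e : ∀ i, pd i (fun y => rho A γ a t y * vel a av t y i * vel a av t y j) x =
      vel a av t x j * pd i (fun y => rho A γ a t y * vel a av t y i) x +
      rho A γ a t x * vel a av t x i * (if i = j then av j t / a j t else 0) := by
    intro i
    rw [pd_eq ((hr.fun_mul (hasFDerivAt_vel t i x)).fun_mul (hasFDerivAt_vel t j x)),
      pd_eq (hr.fun_mul (hasFDerivAt_vel t i x))]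
    simp only [ContinuousLinearMap.add_apply, ContinuousLinearMap.smul_apply, smul_eq_mul, sum_pr]
    by_cases hij : i = j
    · subst hij
      simp
      ring
    · have hji : j ≠ i := fun h => hij h.symm
      simp [hij, hji, PiLp.single_apply]
  have e2 : pd j (fun y => A * rho A γ a t y ^ γ) x =
      -(rho A γ a t x * ((∏ j, a j t) ^ (1 - γ) / a j t ^ 2 * x j)) := by
    have h1 := (hr.rpow_const (p := γ) (Or.inl hrho.ne')).const_mul A
    rw [pd_eq h1]
    simp only [ContinuousLinearMap.smul_apply, smul_eq_mul, sum_pr]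
    rw [rho_rpow hA hγ h t x, max_eq_left hS.le]
    unfold KK
    have := (h.pos j t).ne'
    field_simp
  rw [e2]
  simp only [e, Finset.sum_add_distrib, ← Finset.mul_sum, mul_ite, mul_zero, Finset.sum_ite_eq',
    Finset.mem_univ, if_true]
  have e3 : vel a av t x j = av j t / a j t * x j := rfl
  have key : rho A γ a t x * (-(∑ j, av j t / a j t) +
        1 / (γ - 1) * (∑ i, 2 * x i ^ 2 * av i t / a i t ^ 3) / S a t x) =
      -∑ i, pd i (fun y => rho A γ a t y * vel a av t y i) x := by linarith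
  rw [key, e3]
  ring

lemma Axes.front (h : Axes γ a av) (t : ℝ) (x : E d) :
    deriv (fun s => S a s x) t + fderiv ℝ (S a t) x (vel a av t x) = 0 := by
  rw [(h.hasDerivAt_S t x).deriv, (hasFDerivAt_S t x).fderiv]
  have := h.transport t x
  simpa using this

/-- acceleration of the particles -/
lemma Axes.accel (h : Axes γ a av) (t : ℝ) (x : E d) :
    deriv (fun s => vel a av s x) t + fderiv ℝ (vel a av t) x (vel a av t x) =
      (∏ j, a j t) ^ (1 - γ) • Gr a t x := by
  have h1 : DifferentiableAt ℝ (fun s => vel a av s x) t :=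
    ((h.contDiff_vel.comp (contDiff_id.prodMk contDiff_const)).differentiable (by simp)).differentiableAt
  have h2 : DifferentiableAt ℝ (vel a av t) x := by
    rw [differentiableAt_euclidean]
    exact fun i => (hasFDerivAt_vel t i x).differentiableAt
  ext i
  have h3 : (fderiv ℝ (vel a av t) x (vel a av t x)) i = (av i t / a i t) * vel a av t x i := by
    have h4 := ((pr i).hasFDerivAt.comp x h2.hasFDerivAt).unique (hasFDerivAt_vel t i x)
    have h5 := congrArg (fun L : E d →L[ℝ] ℝ => L (vel a av t x)) h4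
    simpa using h5
  have h6 : (deriv (fun s => vel a av s x) t) i =
      (((∏ j, a j t) ^ (1 - γ) / a i t ^ 2 - (av i t / a i t) ^ 2) * x i) := by
    have h7 := ((pr i).hasFDerivAt.comp_hasDerivAt t h1.hasDerivAt).unique (h.hasDerivAt_vel t i x)
    simpa using h7
  rw [PiLp.add_apply, h3, h6, PiLp.smul_apply]
  simp only [smul_eq_mul, Gr, vel]
  ring

/-- the square of the sound speed -/
lemma Axes.sound (h : Axes γ a av) (hA : 0 < A) (hγ : 1 < γ) (t : ℝ) (x : E d) :
    γ * A * rho A γ a t x ^ (γ - 1) = (γ - 1) / 2 * (∏ j, a j t) ^ (1 - γ) * max (S a t x) 0 := by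
  rw [rho_rpow hA hγ h]
  unfold KK
  field_simp

lemma Axes.sound_lip (h : Axes γ a av) (hA : 0 < A) (hγ : 1 < γ) (t : ℝ) :
    ∃ K : ℝ≥0, LipschitzOnWith K (fun x => γ * A * rho A γ a t x ^ (γ - 1)) (closure (Om a t)) := by
  obtain ⟨K, hK⟩ := ((h.contDiff_S_space t).of_le (m := 1) (mod_cast le_top)).contDiffOn.exists_lipschitzOnWith
    one_ne_zero (convex_closedBall (0 : E d) (Real.sqrt (∑ i, a i t ^ 2))) (isCompact_closedBall _ _)
  have hK' := hK.mono (h.closure_Om_subset t)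
  have hC : 0 ≤ (γ - 1) / 2 * (∏ j, a j t) ^ (1 - γ) := by
    have := h.prod_pos t
    have : 0 < γ - 1 := by linarith
    positivity
  refine ⟨((γ - 1) / 2 * (∏ j, a j t) ^ (1 - γ)).toNNReal * K, LipschitzOnWith.of_dist_le_mul ?_⟩
  intro x hx y hy
  simp only [h.sound hA hγ]
  rw [Real.dist_eq, ← mul_sub, abs_mul, abs_of_nonneg hC]
  push_cast
  rw [Real.coe_toNNReal _ hC, mul_assoc _ (K : ℝ)]
  refine mul_le_mul_of_nonneg_left ?_ hC
  have h1 := hK'.dist_le_mul x hx y hy
  rw [Real.dist_eq] at h1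
  exact (abs_max_sub_max_le_abs _ _ _).trans h1

lemma Axes.S_line (h : Axes γ a av) (t : ℝ) (x v : E d) (s : ℝ) :
    S a t (x + s • v) = S a t x - 2 * s * inner ℝ (Gr a t x) v - s ^ 2 * ∑ i, v i ^ 2 / a i t ^ 2 := by
  have e : inner ℝ (Gr a t x) v = ∑ i, x i * v i / a i t ^ 2 := by
    simp only [Gr, PiLp.inner_apply]
    refine Finset.sum_congr rfl fun i _ => ?_
    simp
    ring
  rw [e]
  unfold S
  rw [sub_sub, sub_sub, Finset.mul_sum, Finset.mul_sum, ← Finset.sum_add_distrib,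
    ← Finset.sum_add_distrib]
  congr 1
  refine Finset.sum_congr rfl fun i _ => ?_
  simp only [PiLp.add_apply, PiLp.smul_apply, smul_eq_mul]
  have := (h.pos i t).ne'
  field_simp
  ring

/-- one sided derivative of the square of the sound speed along the inner normal -/
lemma Axes.sound_normal (h : Axes γ a av) (hA : 0 < A) (hγ : 1 < γ) {t : ℝ} {x : E d}
    (hx : S a t x = 0) :
    HasDerivWithinAt (fun s : ℝ => γ * A * rho A γ a t (x - s • ((‖Gr a t x‖)⁻¹ • Gr a t x)) ^ (γ - 1))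
      ((γ - 1) * ((∏ j, a j t) ^ (1 - γ) * ‖Gr a t x‖)) (Ici 0) 0 := by
  have hG := norm_pos_iff.2 (h.Gr_ne hx)
  set v : E d := -((‖Gr a t x‖)⁻¹ • Gr a t x) with hv
  set Q : ℝ := ∑ i, v i ^ 2 / a i t ^ 2 with hQ
  have hQ0 : 0 ≤ Q := Finset.sum_nonneg fun i _ => by positivity
  have hin : inner ℝ (Gr a t x) v = -‖Gr a t x‖ := by
    rw [hv, inner_neg_right, inner_smul_right, real_inner_self_eq_norm_sq]
    field_simp
  have hS : ∀ s : ℝ, S a t (x - s • ((‖Gr a t x‖)⁻¹ • Gr a t x)) = 2 * s * ‖Gr a t x‖ - s ^ 2 * Q := by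
    intro s
    have e1 : x - s • ((‖Gr a t x‖)⁻¹ • Gr a t x) = x + s • v := by
      rw [hv, smul_neg, sub_eq_add_neg]
    rw [e1, h.S_line, hx, hin]
    ring
  simp only [h.sound hA hγ, hS]
  have h1 : HasDerivWithinAt (fun s : ℝ => (γ - 1) / 2 * (∏ j, a j t) ^ (1 - γ) *
      (2 * s * ‖Gr a t x‖ - s ^ 2 * Q)) ((γ - 1) * ((∏ j, a j t) ^ (1 - γ) * ‖Gr a t x‖)) (Ici 0) 0 := by
    have h2 : HasDerivAt (fun s : ℝ => 2 * s * ‖Gr a t x‖ - s ^ 2 * Q) (2 * ‖Gr a t x‖) 0 := by
      have := (((hasDerivAt_id (0:ℝ)).const_mul 2).mul_const ‖Gr a t x‖).sub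
        ((hasDerivAt_pow 2 (0:ℝ)).mul_const Q)
      refine this.congr_deriv ?_
      simp
    refine (h2.const_mul _).hasDerivWithinAt.congr_deriv ?_
    ring
  refine h1.congr_of_eventuallyEq ?_ (by simp)
  have hη : 0 < ‖Gr a t x‖ / (Q + 1) := by positivity
  have : ∀ᶠ s in 𝓝[Ici 0] (0:ℝ), s < ‖Gr a t x‖ / (Q + 1) :=
    (nhdsWithin_le_nhds) (Iio_mem_nhds hη)
  filter_upwards [this, self_mem_nhdsWithin] with s hs hs0
  have hs0' : 0 ≤ s := hs0
  rw [max_eq_left]
  rw [lt_div_iff₀ (by positivity)] at hs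
  have : 0 ≤ s * (2 * ‖Gr a t x‖ - s * Q) := by
    apply mul_nonneg hs0'
    nlinarith
  nlinarith

end Pool.Agent.KS6_2.GC2.Gas
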