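import Mathlib
import Pool.Agent.KS6_2.GC2.GasOde
import Pool.Agent.KS6_2.GC2.GasPde

set_option autoImplicit false

open Set Real Filter Topology MeasureTheory
open scoped NNReal ContDiff

namespace Pool.Agent.KS6_2.GC2.Gas

variable {d : ℕ} {γ : ℝ} {a av : Fin d → ℝ → ℝ}

/-- conservation of energy -/
lemma Axes.energy (h : Axes γ a av) (hγ : 1 < γ) (t : ℝ) :
    HasDerivAt (fun t => 1 / 2 * ∑ i, av i t ^ 2 + 1 / (γ - 1) * (∏ j, a j t) ^ (1 - γ)) 0 t := by
  have hP := h.prod_pos t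
  have hg : γ - 1 ≠ 0 := by
    have : 0 < γ - 1 := by linarith
    exact this.ne'
  have h1 : HasDerivAt (fun t => ∑ i, av i t ^ 2)
      (∑ i, 2 * av i t * ((∏ j, a j t) ^ (1 - γ) / a i t)) t := by
    refine HasDerivAt.fun_sum fun i _ => ?_
    have := (h.hav i t).pow 2
    refine this.congr_deriv ?_
    push_cast
    ring
  have h2 := (h.hasDerivAt_prod t).rpow_const (p := 1 - γ) (Or.inl hP.ne')
  refine ((h1.const_mul (1 / 2)).add (h2.const_mul (1 / (γ - 1)))).congr_deriv ?_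
  have e : (∏ j, a j t) ^ (1 - γ) = (∏ j, a j t) * (∏ j, a j t) ^ (1 - γ - 1) := by
    rw [Real.rpow_sub_one hP.ne']
    field_simp
  have e2 : ∑ i, 2 * av i t * ((∏ j, a j t) ^ (1 - γ) / a i t) =
      2 * ((∏ j, a j t) ^ (1 - γ) * ∑ i, av i t / a i t) := by
    rw [Finset.mul_sum, Finset.mul_sum]
    refine Finset.sum_congr rfl fun i _ => ?_
    ring
  rw [e2]
  have e3 : (1 / (γ - 1)) * ((∏ j, a j t) * (∑ j, av j t / a j t) * (1 - γ) *
      (∏ j, a j t) ^ (1 - γ - 1)) = -((∏ j, a j t) ^ (1 - γ) * ∑ i, av i t / a i t) := by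
    rw [e]
    field_simp
    ring
  rw [e3]
  ring

/-- the speeds of the semi-axes are bounded -/
lemma Axes.exists_bound (h : Axes γ a av) (hγ : 1 < γ) : ∃ M : ℝ, ∀ i t, av i t ≤ M := by
  set En : ℝ → ℝ := fun t => 1 / 2 * ∑ i, av i t ^ 2 + 1 / (γ - 1) * (∏ j, a j t) ^ (1 - γ) with hEn
  have hconst : ∀ t, En t = En 0 := by
    intro t
    exact is_const_of_deriv_eq_zero (fun t => (h.energy hγ t).differentiableAt)
      (fun t => (h.energy hγ t).deriv) t 0
  refine ⟨Real.sqrt (2 * En 0), fun i t => Real.le_sqrt_of_sq_le ?_⟩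
  rw [← hconst t]
  have h1 : av i t ^ 2 ≤ ∑ i, av i t ^ 2 :=
    Finset.single_le_sum (f := fun i => av i t ^ 2) (fun _ _ => sq_nonneg _) (Finset.mem_univ i)
  have h2 : 0 ≤ 1 / (γ - 1) * (∏ j, a j t) ^ (1 - γ) := by
    have : 0 < γ - 1 := by linarith
    have := h.prod_pos t
    positivity
  simp only [hEn]
  linarith

/-- the semi-axes accelerate -/
lemma Axes.strictMono_av (h : Axes γ a av) (i : Fin d) : StrictMono (av i) := by
  refine strictMono_of_deriv_pos fun t => ?_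
  rw [(h.hav i t).deriv]
  have := h.prod_pos t
  have := h.pos i t
  positivity

/-- the speeds of the semi-axes converge -/
lemma Axes.exists_lim (h : Axes γ a av) (hγ : 1 < γ) :
    ∃ α : Fin d → ℝ, (∀ i, Tendsto (av i) atTop (𝓝 (α i))) ∧ ∀ i t, av i t ≤ α i := by
  obtain ⟨M, hM⟩ := h.exists_bound hγ
  have hb : ∀ i, BddAbove (range (av i)) := fun i => ⟨M, by rintro _ ⟨t, rfl⟩; exact hM i t⟩
  exact ⟨fun i => ⨆ t, av i t, fun i => tendsto_atTop_ciSup (h.strictMono_av i).monotone (hb i),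
    fun i t => le_ciSup (hb i) t⟩

/-- if the derivative converges then the mean slope converges to the same limit -/
lemma tendsto_div_of_deriv {f f' : ℝ → ℝ} (hf : ∀ t, HasDerivAt f (f' t) t) {α : ℝ}
    (h : Tendsto f' atTop (𝓝 α)) : Tendsto (fun t => f t / t) atTop (𝓝 α) := by
  rw [Metric.tendsto_atTop] at h ⊢
  intro ε hε
  obtain ⟨T₀, hT₀⟩ := h (ε / 2) (by positivity)
  set T := max T₀ 0 with hT
  have hT' : ∀ t, T ≤ t → α - ε / 2 ≤ f' t ∧ f' t ≤ α + ε / 2 := by
    intro t ht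
    have := hT₀ t ((le_max_left _ _).trans ht)
    rw [Real.dist_eq, abs_lt] at this
    constructor <;> linarith [this.1, this.2]
  have hT0 : 0 ≤ T := le_max_right _ _
  refine ⟨max (T + 1) (2 * |f T - α * T| / ε + 1), fun t ht => ?_⟩
  have h1 : T + 1 ≤ t := (le_max_left _ _).trans ht
  have h2 : 2 * |f T - α * T| / ε + 1 ≤ t := (le_max_right _ _).trans ht
  have ht0 : 0 < t := by linarith
  have hTt : T ≤ t := by linarith
  have a1 := lower_bd hf hTt (m := α - ε / 2) (fun τ hτ => (hT' τ hτ.1).1)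
  have a2 := upper_bd hf hTt (m := α + ε / 2) (fun τ hτ => (hT' τ hτ.1).2)
  have h3 : 2 * |f T - α * T| < t * ε := by
    have : 2 * |f T - α * T| / ε < t := by linarith
    rwa [div_lt_iff₀ hε] at this
  have b1 := neg_abs_le (f T - α * T)
  have b2 := le_abs_self (f T - α * T)
  rw [Real.dist_eq, show f t / t - α = (f t - α * t) / t by field_simp, abs_div, abs_of_pos ht0,
    div_lt_iff₀ ht0, abs_lt]
  have h4 : 0 ≤ ε * T := by positivity
  constructor <;> nlinarith

/-- the solid open ellipsoid with semi-axes `b` -/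
def Ell {d : ℕ} (b : Fin d → ℝ) : Set (EuclideanSpace ℝ (Fin d)) := {x | ∑ i, x i ^ 2 / b i ^ 2 < 1}

lemma Ell_congr_sq {b b' : Fin d → ℝ} (h : ∀ i, b i ^ 2 = b' i ^ 2) : Ell b = Ell b' := by
  unfold Ell
  simp only [h]

lemma image_Om {t : ℝ} (ht : t ≠ 0) :
    (fun x : E d => t⁻¹ • x) '' Om a t = Ell (fun i => a i t / t) := by
  ext x
  constructor
  · rintro ⟨y, hy, rfl⟩
    have hy' : 0 < S a t y := hy
    unfold S at hy'
    show ∑ i, ((t⁻¹ • y) i) ^ 2 / (a i t / t) ^ 2 < 1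
    have : ∀ i, ((t⁻¹ • y) i) ^ 2 / (a i t / t) ^ 2 = y i ^ 2 / a i t ^ 2 := by
      intro i
      rw [PiLp.smul_apply, smul_eq_mul]
      by_cases h0 : a i t = 0
      · simp [h0]
      · field_simp
    simp only [this]
    linarith
  · intro hx
    have hx' : ∑ i, x i ^ 2 / (a i t / t) ^ 2 < 1 := hx
    refine ⟨t • x, ?_, ?_⟩
    · show 0 < S a t (t • x)
      unfold S
      have : ∀ i, ((t • x) i) ^ 2 / a i t ^ 2 = x i ^ 2 / (a i t / t) ^ 2 := by
        intro i
        rw [PiLp.smul_apply, smul_eq_mul]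
        by_cases h0 : a i t = 0
        · simp [h0]
        · field_simp
      simp only [this]
      linarith
    · simp only [smul_smul, inv_mul_cancel₀ ht, one_smul]

lemma norm_le_sum (x : EuclideanSpace ℝ (Fin d)) : ‖x‖ ≤ ∑ i, |x i| := by
  have e : x = ∑ i, EuclideanSpace.single i (x i) := by
    ext j
    simp [Finset.sum_apply, PiLp.single_apply]
  calc ‖x‖ = ‖∑ i, EuclideanSpace.single i (x i)‖ := by rw [← e]
    _ ≤ ∑ i, ‖(EuclideanSpace.single i (x i) : EuclideanSpace ℝ (Fin d))‖ := norm_sum_le _ _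
    _ = ∑ i, |x i| := by simp

lemma abs_lt_of_mem_Ell {b : Fin d → ℝ} (hb : ∀ i, 0 < b i) {x : EuclideanSpace ℝ (Fin d)}
    (hx : x ∈ Ell b) (i : Fin d) : |x i| ≤ b i := by
  have hx' : ∑ i, x i ^ 2 / b i ^ 2 < 1 := hx
  have h1 : x i ^ 2 / b i ^ 2 ≤ ∑ j, x j ^ 2 / b j ^ 2 :=
    Finset.single_le_sum (f := fun j => x j ^ 2 / b j ^ 2) (fun j _ => by positivity)
      (Finset.mem_univ i)
  have h2 : x i ^ 2 / b i ^ 2 ≤ 1 := by linarith
  have hp := hb i
  rw [div_le_one (by positivity)] at h2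
  exact abs_le_of_sq_le_sq h2 hp.le

lemma exists_near {b β : Fin d → ℝ} (hb : ∀ i, 0 < b i) (hβ : ∀ i, 0 < β i)
    {x : EuclideanSpace ℝ (Fin d)} (hx : x ∈ Ell b) :
    ∃ y ∈ Ell β, edist x y ≤ ENNReal.ofReal (∑ i, |b i - β i|) := by
  refine ⟨WithLp.toLp 2 (fun i => β i / b i * x i), ?_, ?_⟩
  · show ∑ i, (β i / b i * x i) ^ 2 / β i ^ 2 < 1
    have hx' : ∑ i, x i ^ 2 / b i ^ 2 < 1 := hx
    have : ∀ i, (β i / b i * x i) ^ 2 / β i ^ 2 = x i ^ 2 / b i ^ 2 := by
      intro i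
      have := (hb i).ne'
      have := (hβ i).ne'
      field_simp
    simp only [this]
    exact hx'
  · rw [edist_dist, dist_eq_norm]
    refine ENNReal.ofReal_le_ofReal ((norm_le_sum _).trans ?_)
    refine Finset.sum_le_sum fun i _ => ?_
    rw [PiLp.sub_apply]
    show |x i - β i / b i * x i| ≤ |b i - β i|
    have h0 := hb i
    have e : x i - β i / b i * x i = (b i - β i) * (x i / b i) := by
      field_simp
    rw [e, abs_mul]
    have h1 : |x i / b i| ≤ 1 := by
      rw [abs_div, abs_of_pos h0, div_le_one h0]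
      exact abs_lt_of_mem_Ell hb hx i
    calc |b i - β i| * |x i / b i| ≤ |b i - β i| * 1 := by gcongr
      _ = _ := mul_one _

lemma hausdorffEDist_Ell {b β : Fin d → ℝ} (hb : ∀ i, 0 < b i) (hβ : ∀ i, 0 < β i) :
    Metric.hausdorffEDist (closure (Ell b)) (closure (Ell β)) ≤ ENNReal.ofReal (∑ i, |b i - β i|) := by
  rw [Metric.hausdorffEDist_closure]
  refine Metric.hausdorffEDist_le_of_mem_edist (fun x hx => exists_near hb hβ hx) (fun x hx => ?_)
  obtain ⟨y, hy, h⟩ := exists_near hβ hb hx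
  refine ⟨y, hy, h.trans (le_of_eq ?_)⟩
  congr 1
  exact Finset.sum_congr rfl fun i _ => abs_sub_comm _ _

lemma tendsto_Ell {l : Filter ℝ} {c : Fin d → ℝ → ℝ} {β : Fin d → ℝ} (hβ : ∀ i, 0 < β i)
    (hc : ∀ i, Tendsto (c i) l (𝓝 (β i))) :
    Tendsto (fun t => Metric.hausdorffEDist (closure (Ell (fun i => c i t))) (closure (Ell β))) l
      (𝓝 0) := by
  have h1 : Tendsto (fun t => ENNReal.ofReal (∑ i, |c i t - β i|)) l (𝓝 0) := by
    have h2 : Tendsto (fun t => ∑ i, |c i t - β i|) l (𝓝 (∑ i : Fin d, (0:ℝ))) := by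
      refine tendsto_finsetSum _ fun i _ => ?_
      have := ((hc i).sub_const (β i)).abs
      simpa using this
    have h3 := ENNReal.tendsto_ofReal h2
    simpa using h3
  refine tendsto_of_tendsto_of_tendsto_of_le_of_le' tendsto_const_nhds h1
    (Eventually.of_forall fun _ => zero_le) ?_
  have hev : ∀ᶠ t in l, ∀ i, 0 < c i t :=
    eventually_all.2 fun i => (hc i).eventually (lt_mem_nhds (hβ i))
  filter_upwards [hev] with t ht
  exact hausdorffEDist_Ell ht hβ

/-- two ellipsoids with different semi-axes have different closures -/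
lemma le_of_closure_subset {b β : Fin d → ℝ} (hb : ∀ i, 0 < b i) (hβ : ∀ i, 0 < β i)
    (h : closure (Ell b) ⊆ closure (Ell β)) (i : Fin d) : b i ≤ β i := by
  have hmem : ∀ r ∈ Ico (0:ℝ) 1, r * b i ≤ β i := by
    intro r hr
    have h1 : (EuclideanSpace.single i (r * b i) : EuclideanSpace ℝ (Fin d)) ∈ Ell b := by
      show ∑ j, (EuclideanSpace.single i (r * b i) : EuclideanSpace ℝ (Fin d)) j ^ 2 / b j ^ 2 < 1
      rw [Finset.sum_eq_single i]
      · simp only [PiLp.single_apply, if_true]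
        have := hb i
        have e : (r * b i) ^ 2 / b i ^ 2 = r ^ 2 := by field_simp
        rw [e]
        nlinarith [hr.1, hr.2]
      · intro j _ hj
        simp [PiLp.single_apply, hj]
      · intro h
        exact absurd (Finset.mem_univ _) h
    have hcl : IsClosed {y : EuclideanSpace ℝ (Fin d) | |y i| ≤ β i} :=
      isClosed_le (by fun_prop) continuous_const
    have h2 := closure_minimal (fun x hx => abs_lt_of_mem_Ell hβ hx i) hcl (h (subset_closure h1))
    have h3 : |(EuclideanSpace.single i (r * b i) : EuclideanSpace ℝ (Fin d)) i| ≤ β i := h2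
    simp only [PiLp.single_apply, if_true] at h3
    exact (le_abs_self _).trans h3
  have hcl : IsClosed {r : ℝ | r * b i ≤ β i} := isClosed_le (by fun_prop) continuous_const
  have h1 : (1:ℝ) ∈ closure (Ico (0:ℝ) 1) := by
    rw [closure_Ico (by norm_num)]
    norm_num
  have h2 : (1:ℝ) * b i ≤ β i := closure_minimal hmem hcl h1
  rwa [one_mul] at h2

end Pool.Agent.KS6_2.GC2.Gas
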